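import Pool.Agent.W854.HW.Stmts

set_option autoImplicit false

open MeasureTheory ProbabilityTheory Filter Topology Finset Set
open scoped NNReal ENNReal

noncomputable section

namespace Pool.Agent.W885.HW

open Pool.Agent.W854.HW

lemma measurable_argmaxCard {n : ℕ} (S : Finset (Fin n)) :
    Measurable (fun x : Fin n → ℝ => argmaxCard S x) := by
  classical
  have h : (fun x : Fin n → ℝ => argmaxCard S x) =
      fun x => ∑ i ∈ S, if (∀ j ∈ S, x j ≤ x i) then 1 else 0 := by
    funext x
    unfold argmaxCard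
    rw [Finset.card_filter]
  rw [h]
  refine Finset.measurable_sum _ fun i _ => ?_
  refine Measurable.ite ?_ measurable_const measurable_const
  have : {x : Fin n → ℝ | ∀ j ∈ S, x j ≤ x i} = ⋂ j ∈ S, {x : Fin n → ℝ | x j ≤ x i} := by
    ext x; simp
  rw [this]
  refine Finset.measurableSet_biInter S fun j _ => ?_
  exact measurableSet_le (measurable_pi_apply j) (measurable_pi_apply i)

lemma alt_sum_choose (m : ℕ) (hm : 1 ≤ m) :
    ∑ k ∈ Finset.Icc 1 m, (-1 : ℝ) ^ (k + 1) * (m.choose k) = 1 := by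
  have h0 : ∑ k ∈ Finset.range (m + 1), (-1 : ℝ) ^ k * (m.choose k) = 0 := by
    have := Int.alternating_sum_range_choose_of_ne (n := m) (by omega)
    exact_mod_cast this
  rw [Finset.sum_range_succ'] at h0
  have h1 : ∑ k ∈ Finset.Icc 1 m, (-1 : ℝ) ^ (k + 1) * (m.choose k) =
      ∑ k ∈ Finset.range m, (-1 : ℝ) ^ (k + 1 + 1) * (m.choose (k + 1)) := by
    rw [Finset.range_eq_Ico, Finset.sum_Ico_add' (fun k => (-1 : ℝ) ^ (k + 1) * (m.choose k)) 0 m 1]
    rfl
  rw [h1]
  have h2 : ∑ k ∈ Finset.range m, (-1 : ℝ) ^ (k + 1 + 1) * (m.choose (k + 1)) =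
      - ∑ k ∈ Finset.range m, (-1 : ℝ) ^ (k + 1) * (m.choose (k + 1)) := by
    rw [← Finset.sum_neg_distrib]
    refine Finset.sum_congr rfl fun k _ => ?_
    rw [pow_succ]; ring
  rw [h2]
  simp at h0
  linarith

theorem main : S_INEX → S_BIN → S_BOUNDS → S_MIN := by
  intro hI hB hBd β ν hν n x Ω mΩ P _ X hM hX Δ hΔ
  classical
  obtain ⟨hX', -, hmart⟩ := hM.mart
  obtain ⟨-, hplus, hminus⟩ := hBd ν hν
  -- number of minimisers
  have hmpos : ∀ w : Fin n → ℝ, 1 ≤ (Δ.filter fun i => ∀ j ∈ Δ, w i ≤ w j).card := by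
    intro w
    obtain ⟨i, hi, hi'⟩ := Finset.exists_min_image Δ w hΔ
    exact Finset.card_pos.mpr ⟨i, Finset.mem_filter.mpr ⟨hi, hi'⟩⟩
  have hmin : ∀ w : Fin n → ℝ, Δ.inf' hΔ w =
      ∑ S ∈ Δ.powerset.erase ∅, (-1 : ℝ) ^ (S.card + 1) * mx S w := by
    intro w
    have h := hI n Δ hΔ w (fun v _ => v)
    rw [h, ← Finset.sum_mul, alt_sum_choose _ (hmpos w), one_mul]
    unfold mn
    rw [dif_pos hΔ]
  set b : ℝ≥0 → Ω → ℝ := fun t ω =>
    ∑ S ∈ Δ.powerset.erase ∅, (-1 : ℝ) ^ (S.card + 1) *
      betaPlus β ν (argmaxCard S (X t ω)) with hb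
  have hmeasB : ∀ (S : Finset (Fin n)) (ω : Ω),
      Measurable fun s : ℝ => betaPlus β ν (argmaxCard S (X s.toNNReal ω)) := by
    intro S ω
    have h1 : Measurable fun s : ℝ => X s.toNNReal ω :=
      ((hM.cont ω).comp continuous_real_toNNReal).measurable
    have h2 : Measurable fun m : ℕ => betaPlus β ν m := measurable_from_top
    exact h2.comp ((measurable_argmaxCard S).comp h1)
  have hint : ∀ (S : Finset (Fin n)) (ω : Ω) (t : ℝ≥0),
      IntervalIntegrable (fun s : ℝ => betaPlus β ν (argmaxCard S (X s.toNNReal ω))) volume 0 t := by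
    intro S ω t
    refine IntervalIntegrable.mono_fun
      (intervalIntegrable_const (c := |β| + |β + speedR ν|)) (hmeasB S ω).aestronglyMeasurable ?_
    refine Filter.Eventually.of_forall fun s => ?_
    have h := hplus β (argmaxCard S (X s.toNNReal ω))
    simp only [Real.norm_eq_abs]
    rw [abs_of_nonneg (add_nonneg (abs_nonneg β) (abs_nonneg (β + speedR ν)))]
    rw [abs_le]
    constructor
    · have := neg_abs_le β
      have := abs_nonneg (β + speedR ν)
      linarith [h.1]
    · have := le_abs_self (β + speedR ν)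
      have := abs_nonneg β
      linarith [h.2]
  refine ⟨b, ?_, ?_, ?_⟩
  · intro t ω
    have h := hI n Δ hΔ (X t ω) (fun _ k => betaPlus β ν k)
    have h2 := hB β ν hν _ (hmpos (X t ω))
    have h3 : b t ω = β - 2 * ∫ q, ∑ k ∈ Finset.range
        ((Δ.filter fun i => ∀ j ∈ Δ, X t ω i ≤ X t ω j).card - 1), q ^ k ∂ν := by
      rw [hb]
      simp only
      exact h.trans h2
    rw [h3]
    exact hminus β _
  · intro ω
    refine Finset.measurable_sum _ fun S _ => ?_
    exact (hmeasB S ω).const_mul _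
  · have hfun : (fun (t : ℝ≥0) ω => Δ.inf' hΔ (X t ω) - ∫ s in (0 : ℝ)..t, b s.toNNReal ω) =
        fun (t : ℝ≥0) ω => ∑ S ∈ Δ.powerset.erase ∅, (-1 : ℝ) ^ (S.card + 1) *
          (mx S (X t ω) - ∫ s in (0 : ℝ)..t, betaPlus β ν (argmaxCard S (X s.toNNReal ω))) := by
      funext t ω
      rw [hmin, hb]
      simp only
      rw [intervalIntegral.integral_finsetSum]
      · rw [← Finset.sum_sub_distrib]
        refine Finset.sum_congr rfl fun S _ => ?_
        rw [intervalIntegral.integral_const_mul]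
        ring
      · intro S _
        exact (hint S ω t).const_mul _
    rw [hfun]
    have hgen : ∀ T : Finset (Finset (Fin n)), (∀ S ∈ T, S.Nonempty) →
        Martingale (fun (t : ℝ≥0) ω => ∑ S ∈ T, (-1 : ℝ) ^ (S.card + 1) *
          (mx S (X t ω) - ∫ s in (0 : ℝ)..t, betaPlus β ν (argmaxCard S (X s.toNNReal ω))))
          (Filtration.natural X hX) P := by
      intro T
      induction T using Finset.induction_on with
      | empty =>
        intro _
        simp only [Finset.sum_empty]
        exact martingale_zero _ _ _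
      | insert S T hS ih =>
        intro hT
        have h1 := ih (fun S' hS' => hT S' (Finset.mem_insert_of_mem hS'))
        have hne := hT S (Finset.mem_insert_self _ _)
        have h2 := hmart S hne
        have h3 := (h2.smul ((-1 : ℝ) ^ (S.card + 1))).add h1
        convert h3 using 1
        funext t ω
        rw [Finset.sum_insert hS]
        simp only [Pi.add_apply, Pi.smul_apply, smul_eq_mul]
        congr 2
        unfold mx
        rw [dif_pos hne]
    refine hgen _ fun S hS => ?_
    rw [Finset.mem_erase] at hS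
    exact Finset.nonempty_iff_ne_empty.mpr hS.1

end Pool.Agent.W885.HW
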